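import Mathlib
import Pool.Agent.Lib.helper24.Succ

set_option autoImplicit false

open Set Filter Topology TopologicalSpace
open Cardinal hiding univ
open Pool.Agent.Lib.helper24.Succ

namespace Pool.Agent.H.MP_31ff53_gt

abbrev V : Type := W ℵ₀
abbrev I : Type := W (Order.succ ℵ₀)

lemma exists_c : ∃ c : I → I → V, ∀ α : I → V, ∃ a, ∀ η, ∃ i j, i ≠ j ∧ α i ≤ a ∧ α j ≤ a ∧
    η < c i j := by
  classical
  have h0 : ℵ₀ ≤ Order.succ ℵ₀ := Order.le_succ _
  have he : ∀ j : I, Nonempty (Iio j ↪ V) := fun j =>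
    (le_def _ _).1 (by rw [mk_W]; exact card_Iio j)
  let e := fun j => (he j).some
  refine ⟨fun i j => if h : i < j then e j ⟨i, h⟩ else Classical.arbitrary V, fun α => ?_⟩
  by_contra hcon
  push Not at hcon
  have h1 : ∀ a, #{i | α i ≤ a} ≤ Order.succ ℵ₀ := by
    intro a
    obtain ⟨η, hη⟩ := hcon a
    by_contra hlt
    push Not at hlt
    obtain ⟨H, hH, hH'⟩ := le_mk_iff_exists_subset.1 hlt.le
    obtain ⟨b, hb⟩ := bdd h0 H hH'.le
    have : ¬ {i | α i ≤ a} ⊆ Iic b := fun h =>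
      absurd ((mk_le_mk_of_subset h).trans (card_Iic h0 b)) (not_le.2 hlt)
    obtain ⟨j, hj, hjb⟩ := not_subset.1 this
    have hbj : b < j := not_le.1 hjb
    have h2 : #H ≤ #(Iic η) := by
      refine mk_le_of_injective (f := fun i : H => (⟨e j ⟨i.1, (hb _ i.2).trans hbj⟩, ?_⟩ : Iic η)) ?_
      · have := hη i.1 j ((hb _ i.2).trans hbj).ne (hH i.2) hj
        rwa [dif_pos ((hb _ i.2).trans hbj)] at this
      · intro i i' h
        have := (e j).injective (congrArg Subtype.val h)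
        exact Subtype.ext (congrArg (fun k : Iio j => k.1) this)
    rw [hH'] at h2
    exact absurd (h2.trans (card_Iic le_rfl η)) (not_le.2 (Order.lt_succ _))
  have h3 : (univ : Set I) ⊆ ⋃ a, {i | α i ≤ a} := fun i _ => mem_iUnion.2 ⟨α i, le_refl (α i)⟩
  have h4 : #(univ : Set I) ≤ Order.succ ℵ₀ := by
    refine (mk_le_mk_of_subset h3).trans (mk_iUnion_le_sum_mk.trans ?_)
    refine (sum_le_sum _ (fun _ => Order.succ ℵ₀) h1).trans ?_
    rw [sum_const', mk_W]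
    exact mul_le_of_le h0 le_rfl le_rfl
  rw [mk_univ, mk_W] at h4
  exact absurd h4 (not_le.2 (Order.lt_succ _))

open Classical in
def O : Set (Set (I → V)) :=
  {U | (∀ f ∈ U, ∃ F : Finset I, ∀ g, (∀ i ∈ F, g i = f i) → g ∈ U) ∧
    ∀ i, ∃ a, ∀ f ∈ U, a < f i → ∀ b, Function.update f i b ∈ U}

lemma O_univ : univ ∈ O :=
  ⟨fun _ _ => ⟨∅, fun _ _ => trivial⟩, fun _ => ⟨Classical.arbitrary V, fun _ _ _ _ => trivial⟩⟩

lemma O_inter {U U' : Set (I → V)} (h : U ∈ O) (h' : U' ∈ O) : U ∩ U' ∈ O := by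
  classical
  refine ⟨fun f hf => ?_, fun i => ?_⟩
  · obtain ⟨F, hF⟩ := h.1 f hf.1
    obtain ⟨F', hF'⟩ := h'.1 f hf.2
    exact ⟨F ∪ F', fun g hg => ⟨hF g fun i hi => hg i (Finset.mem_union_left _ hi),
      hF' g fun i hi => hg i (Finset.mem_union_right _ hi)⟩⟩
  · obtain ⟨a, ha⟩ := h.2 i
    obtain ⟨a', ha'⟩ := h'.2 i
    exact ⟨max a a', fun f hf hi b => ⟨ha f hf.1 (max_lt_iff.1 hi).1 b,
      ha' f hf.2 (max_lt_iff.1 hi).2 b⟩⟩

lemma O_sUnion {S : Set (Set (I → V))} (h : S ⊆ O) (hS : S.Countable) : ⋃₀ S ∈ O := by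
  refine ⟨?_, fun i => ?_⟩
  · rintro f ⟨U, hU, hf⟩
    obtain ⟨F, hF⟩ := (h hU).1 f hf
    exact ⟨F, fun g hg => ⟨U, hU, hF g hg⟩⟩
  · choose a ha using fun U : S => (h U.2).2 i
    haveI := hS.to_subtype
    obtain ⟨b, hb⟩ := bdd_range le_rfl (J := S) mk_le_aleph0 a
    refine ⟨b, ?_⟩
    rintro f ⟨U, hU, hf⟩ hi d
    exact ⟨U, hU, ha ⟨U, hU⟩ f hf ((hb _).trans hi) d⟩

lemma O_coord (i : I) (a : V) (P : V → Prop) (hP : ∀ b, P b → b ≤ a) : {f | P (f i)} ∈ O := by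
  refine ⟨fun f hf => ⟨{i}, fun g hg => ?_⟩, fun j => ⟨a, fun f hf hj b => ?_⟩⟩
  · show P (g i)
    rw [hg i (Finset.mem_singleton_self i)]; exact hf
  · by_cases h : i = j
    · subst h
      exact absurd (hP _ hf) (not_le.2 hj)
    · show P (Function.update f j b i)
      rw [Function.update_of_ne h]; exact hf

lemma O_le (i : I) (a : V) : {f : I → V | f i ≤ a} ∈ O := O_coord i a (· ≤ a) fun _ h => h
lemma O_eq (i : I) (a : V) : {f : I → V | f i = a} ∈ O := O_coord i a (· = a) fun _ h => h.le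

structure X : Type where
  z : Set (Set (I → V))
  sub : z ⊆ O
  ne : ∀ U ∈ z, U.Nonempty
  top : univ ∈ z
  inter : ∀ U ∈ z, ∀ U' ∈ z, U ∩ U' ∈ z
  max : ∀ U ∈ O, (∀ U' ∈ z, (U ∩ U').Nonempty) → U ∈ z

lemma X.up (x : X) {U U' : Set (I → V)} (h : U ∈ x.z) (h' : U' ∈ O) (hs : U ⊆ U') : U' ∈ x.z :=
  x.max _ h' fun T hT => (x.ne _ (x.inter _ h _ hT)).mono (inter_subset_inter_left _ hs)

lemma exists_X (w : Set (Set (I → V))) (hw : w ⊆ O)
    (hc : ∀ t ⊆ w, t.Finite → (⋂₀ t).Nonempty) : ∃ x : X, w ⊆ x.z := by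
  obtain ⟨m, hwm, hm⟩ := zorn_subset_nonempty
    {w : Set (Set (I → V)) | w ⊆ O ∧ ∀ t ⊆ w, t.Finite → (⋂₀ t).Nonempty} (by
      intro c hc hchain hne
      refine ⟨⋃₀ c, ⟨sUnion_subset fun w hw => (hc hw).1, fun t ht htf => ?_⟩,
        fun s hs => subset_sUnion_of_mem hs⟩
      obtain ⟨w, hw, htw⟩ := hchain.directedOn.exists_mem_subset_of_finite_of_subset_sUnion
        hne htf ht
      exact (hc hw).2 t htw htf) w ⟨hw, hc⟩
  have key : ∀ U ∈ O, (∀ t ⊆ m, t.Finite → (U ∩ ⋂₀ t).Nonempty) → U ∈ m := by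
    intro U hU h
    refine hm.2 (y := insert U m) ⟨insert_subset hU hm.1.1, fun t ht htf => ?_⟩
      (subset_insert _ _) (mem_insert _ _)
    refine (h (t \ {U}) (fun s hs => (ht hs.1).resolve_left hs.2) htf.sdiff).mono ?_
    rintro f ⟨h1, h2⟩ s hs
    by_cases h3 : s = U
    · exact h3 ▸ h1
    · exact h2 s ⟨hs, h3⟩
  have hinter : ∀ U ∈ m, ∀ U' ∈ m, U ∩ U' ∈ m := by
    intro U hU U' hU'
    refine key _ (O_inter (hm.1.1 hU) (hm.1.1 hU')) fun t ht htf => ?_
    have := hm.1.2 (insert U (insert U' t)) (insert_subset hU (insert_subset hU' ht))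
      ((htf.insert _).insert _)
    rwa [sInter_insert, sInter_insert, ← inter_assoc] at this
  have htop : univ ∈ m := key _ O_univ fun t ht htf => by
    rw [univ_inter]; exact hm.1.2 t ht htf
  refine ⟨⟨m, hm.1.1, fun U hU => ?_, htop, hinter, fun U hU h => key U hU fun t ht htf => h _ ?_⟩,
    hwm⟩
  · simpa using hm.1.2 {U} (singleton_subset_iff.2 hU) (finite_singleton U)
  · induction t, htf using Set.Finite.induction_on with
    | empty => simpa using htop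
    | insert _ _ ih =>
      rw [sInter_insert]
      exact hinter _ (ht (mem_insert _ _)) _ (ih ((subset_insert _ _).trans ht))

lemma exists_X' (w : Set (Set (I → V))) (hw : w ⊆ O) (f : I → V) (hf : ∀ U ∈ w, f ∈ U) :
    ∃ x : X, w ⊆ x.z :=
  exists_X w hw fun _ ht _ => ⟨f, fun U hU => hf U (ht hU)⟩

def st (U : Set (I → V)) : Set X := {x | U ∈ x.z}

def B : Set (Set X) := st '' O

instance : TopologicalSpace X := generateFrom B

lemma st_inter {U U' : Set (I → V)} (h : U ∈ O) (h' : U' ∈ O) : st (U ∩ U') = st U ∩ st U' := by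
  ext x
  exact ⟨fun hx => ⟨x.up hx h inter_subset_left, x.up hx h' inter_subset_right⟩,
    fun hx => x.inter _ hx.1 _ hx.2⟩

lemma basis : IsTopologicalBasis B := by
  refine ⟨?_, ?_, rfl⟩
  · rintro _ ⟨U, hU, rfl⟩ _ ⟨U', hU', rfl⟩ x hx
    exact ⟨_, ⟨U ∩ U', O_inter hU hU', rfl⟩, by rw [st_inter hU hU']; exact hx,
      (st_inter hU hU').subset⟩
  · exact eq_univ_of_forall fun x => ⟨_, ⟨univ, O_univ, rfl⟩, x.top⟩

lemma open_st {U : Set (I → V)} (h : U ∈ O) : IsOpen (st U) := basis.isOpen ⟨U, h, rfl⟩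

lemma exists_disj {x : X} {U : Set (I → V)} (h : U ∈ O) (hx : U ∉ x.z) :
    ∃ U' ∈ x.z, U ∩ U' = ∅ := by
  by_contra hcon
  push Not at hcon
  exact hx (x.max U h hcon)

lemma clopen_st {U : Set (I → V)} (h : U ∈ O) : IsClopen (st U) := by
  refine ⟨⟨isOpen_iff_mem_nhds.2 fun x hx => ?_⟩, open_st h⟩
  obtain ⟨U', hU', he⟩ := exists_disj h hx
  refine mem_of_superset ((open_st (x.sub hU')).mem_nhds hU') fun y hy hy' => ?_
  have := y.ne _ (y.inter _ hy' _ hy)
  rw [he] at this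
  exact not_nonempty_empty this

lemma t35 : T35Space X := by
  haveI : T0Space X := by
    refine ⟨fun x y h => ?_⟩
    have : x.z = y.z := by
      ext U
      exact ⟨fun hU => (h.mem_open_iff (open_st (x.sub hU))).1 hU,
        fun hU => (h.mem_open_iff (open_st (y.sub hU))).2 hU⟩
    cases x; cases y; cases this; rfl
  haveI : CompletelyRegularSpace X := by
    refine CompletelyRegularSpace.of_isTopologicalBasis_clopens ?_
    refine isTopologicalBasis_of_isOpen_of_nhds (fun U hU => hU.2) fun x U hx hU => ?_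
    obtain ⟨_, ⟨T, hT, rfl⟩, h1, h2⟩ := basis.exists_subset_of_mem_open hx hU
    exact ⟨_, clopen_st hT, h1, h2⟩
  exact {}

lemma disj_iff {U U' : Set (I → V)} (h : U ∈ O) (h' : U' ∈ O) :
    Disjoint (st U) (st U') ↔ Disjoint U U' := by
  constructor
  · intro hd
    by_contra hcon
    obtain ⟨f, h1, h2⟩ := not_disjoint_iff.1 hcon
    obtain ⟨x, hx⟩ := exists_X' {U, U'} (insert_subset h (singleton_subset_iff.2 h')) f (by
      rintro _ (rfl | rfl) <;> assumption)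
    exact disjoint_left.1 hd (hx (mem_insert _ _)) (hx (Or.inr rfl))
  · intro hd
    refine disjoint_left.2 fun x h1 h2 => ?_
    have := x.ne _ (x.inter _ h1 _ h2)
    rw [hd.inter_eq] at this
    exact not_nonempty_empty this

lemma nested (C D : Set (Set X)) (hC : C ⊆ B) (hD : D ⊆ B) (hc : C.Countable)
    (hd : ∀ c ∈ C, ∀ d ∈ D, Disjoint c d) :
    ∃ U ∈ B, (∀ c ∈ C, c ⊆ U) ∧ ∀ d ∈ D, Disjoint U d := by
  choose u hu hu' using fun c : C => hC c.2
  haveI := hc.to_subtype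
  have hO : ⋃₀ range u ∈ O := O_sUnion (range_subset_iff.2 hu) (countable_range u)
  refine ⟨_, ⟨_, hO, rfl⟩, fun c hc x hx => ?_, fun d hd' => ?_⟩
  · have : x ∈ st (u ⟨c, hc⟩) := by rw [hu']; exact hx
    exact x.up this hO (subset_sUnion_of_mem ⟨_, rfl⟩)
  · obtain ⟨U', hU', rfl⟩ := hD hd'
    rw [disj_iff hO hU', disjoint_sUnion_left]
    rintro _ ⟨c, rfl⟩
    rw [← disj_iff (hu c) hU', hu']
    exact hd _ c.2 _ hd'

lemma cocompact : @CompactSpace X (generateFrom {T | ∃ U ∈ B, T = (closure U)ᶜ}) := by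
  refine @CompactSpace.mk X (generateFrom _) ?_
  refine (@isCompact_iff_ultrafilter_le_nhds X (generateFrom _) _).2 fun F _ => ?_
  obtain ⟨x, hx⟩ := exists_X {U ∈ O | st U ∈ F} (fun _ h => h.1) (by
    intro t ht htf
    have : ⋂ U ∈ t, st U ∈ F := (biInter_mem htf).2 fun U hU => (ht hU).2
    obtain ⟨y, hy⟩ := F.nonempty_of_mem this
    refine y.ne _ ?_
    clear this
    induction t, htf using Set.Finite.induction_on with
    | empty => simpa using y.top
    | insert _ _ ih =>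
      rw [sInter_insert]
      rw [biInter_insert] at hy
      exact y.inter _ hy.1 _ (ih ((subset_insert _ _).trans ht) hy.2))
  refine ⟨x, trivial, ?_⟩
  rw [nhds_generateFrom]
  refine le_iInf₂ ?_
  rintro _ ⟨h1, _, ⟨U, hU, rfl⟩, rfl⟩
  rw [(clopen_st hU).1.closure_eq] at h1 ⊢
  rw [le_principal_iff]
  exact Ultrafilter.compl_mem_iff_notMem.2 fun h => h1 (hx ⟨hU, h⟩)

lemma exists_le (x : X) (i : I) : ∃ a, {f : I → V | f i ≤ a} ∈ x.z := by
  let o := Classical.arbitrary V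
  by_cases h : {f : I → V | f i ≤ o} ∈ x.z
  · exact ⟨o, h⟩
  · obtain ⟨U, hU, he⟩ := exists_disj (O_le i o) h
    obtain ⟨a, ha⟩ := (x.sub hU).2 i
    refine ⟨a, x.up hU (O_le i a) fun f hf => ?_⟩
    by_contra hlt
    have h1 := ha f hf (not_le.1 hlt) o
    have : _ ∈ {f : I → V | f i ≤ o} ∩ U := ⟨by simp, h1⟩
    rw [he] at this
    exact this

theorem not_k : ¬ ∀ A : Set X, (∀ K : Set X, IsCompact K → IsClosed ((↑) ⁻¹' A : Set K)) →
    IsClosed A := by
  classical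
  intro hk
  obtain ⟨c, hc⟩ := exists_c
  let o := Classical.arbitrary V
  let L : X → I → V → Prop := fun x i η => ∃ a < η, {f : I → V | f i ≤ a} ∈ x.z
  let P : X → V → Prop := fun x η => ∀ i j, i ≠ j → L x i η → L x j η → c i j ≤ η
  let A : Set X := {x | ∃ η, o < η ∧ P x η}
  have h1 : ∀ x ∉ A, ∀ η, ∃ N ∈ 𝓝 x, ∀ y ∈ N, ∀ η' ≤ η, o < η' → ¬ P y η' := by
    intro x hx η
    induction η using WellFoundedLT.induction with
    | ind η ih =>
      by_cases ho : o < η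
      · have : ¬ P x η := fun h => hx ⟨η, ho, h⟩
        simp only [P, not_forall] at this
        obtain ⟨i, j, hij, ⟨a, ha, ha'⟩, ⟨b, hb, hb'⟩, hlt⟩ := this
        obtain ⟨N, hN, hN'⟩ := ih (max a b) (max_lt ha hb)
        refine ⟨N ∩ (st {f | f i ≤ a} ∩ st {f | f j ≤ b}), inter_mem hN
          (inter_mem ((open_st (O_le i a)).mem_nhds ha') ((open_st (O_le j b)).mem_nhds hb')),
          fun y hy η' hη' ho' hP => ?_⟩
        by_cases h : η' ≤ max a b
        · exact hN' y hy.1 η' h ho' hP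
        · obtain ⟨h2, h3⟩ := max_lt_iff.1 (not_le.1 h)
          exact hlt ((hP i j hij ⟨a, h2, hy.2.1⟩ ⟨b, h3, hy.2.2⟩).trans hη')
      · exact ⟨univ, univ_mem, fun y _ η' hη' ho' => absurd (ho'.trans_le hη') ho⟩
  have hA : IsClosed A := by
    refine hk A fun K hK => ⟨isOpen_iff_mem_nhds.2 fun x hx => ?_⟩
    have : ∀ i, ∃ a, K ⊆ st {f | f i ≤ a} := fun i =>
      hK.elim_directed_cover (fun a => st {f | f i ≤ a}) (fun a => open_st (O_le i a))
        (fun y _ => mem_iUnion.2 (exists_le y i))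
        (directed_of_isDirected_le fun a b hab y hy => y.up hy (O_le i b) fun f hf =>
          le_trans hf hab)
    choose α hα using this
    obtain ⟨a, ha⟩ := hc α
    obtain ⟨N, hN, hN'⟩ := h1 x.1 hx a
    refine mem_of_superset (continuous_subtype_val.continuousAt.preimage_mem_nhds hN) ?_
    rintro y hy ⟨η, ho, hP⟩
    by_cases h : η ≤ a
    · exact hN' y.1 hy η h ho hP
    · obtain ⟨i, j, hij, hi, hj, hlt⟩ := ha η
      exact absurd (hP i j hij ⟨α i, hi.trans_lt (not_le.1 h), hα i y.2⟩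
        ⟨α j, hj.trans_lt (not_le.1 h), hα j y.2⟩) (not_le.2 hlt)
  obtain ⟨x, hx⟩ := exists_X' (range fun i => {f : I → V | f i ≤ o})
    (range_subset_iff.2 fun i => O_le i o) (fun _ => o) (by rintro _ ⟨i, rfl⟩; exact le_refl o)
  have hxA : x ∈ A := by
    rw [← hA.closure_eq, basis.mem_closure_iff]
    rintro _ ⟨U, hU, rfl⟩ hxU
    obtain ⟨f, hf⟩ := x.ne U hxU
    obtain ⟨F, hF⟩ := hU.1 f hf
    obtain ⟨η, hη⟩ := bdd_countable le_rfl (insert o ((fun p : I × I => c p.1 p.2) '' (F ×ˢ F)))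
      (((F.finite_toSet.prod F.finite_toSet).image _).insert o).countable
    let g : I → V := fun i => if i ∈ F then f i else η
    obtain ⟨y, hy⟩ := exists_X' (insert U (range fun i => {f : I → V | f i = g i}))
      (insert_subset hU (range_subset_iff.2 fun i => O_eq i _)) g (by
        rintro _ (rfl | ⟨i, rfl⟩)
        · exact hF g fun i hi => if_pos hi
        · rfl)
    have hL : ∀ i, L y i η → i ∈ F := by
      rintro i ⟨a, ha, ha'⟩
      obtain ⟨f', h2, h3⟩ := y.ne _ (y.inter _ ha' _ (hy (Or.inr ⟨i, rfl⟩)))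
      by_contra h
      have h4 : f' i = η := h3.trans (if_neg h)
      exact absurd (h4 ▸ h2 : η ≤ a) (not_le.2 ha)
    exact ⟨y, hy (mem_insert _ _), η, hη o (mem_insert _ _), fun i j _ hi hj =>
      (hη _ (Or.inr ⟨(i, j), ⟨hL i hi, hL j hj⟩, rfl⟩)).le⟩
  obtain ⟨η, ho, hP⟩ := hxA
  obtain ⟨a, ha⟩ := hc fun _ => o
  obtain ⟨i, j, hij, -, -, hlt⟩ := ha η
  exact absurd (hP i j hij ⟨o, ho, hx ⟨i, rfl⟩⟩ ⟨o, ho, hx ⟨j, rfl⟩⟩) (not_le.2 hlt)

end Pool.Agent.H.MP_31ff53_gt
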